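import Pool.Agent.H.MP_8027ba_an.D

set_option autoImplicit false

namespace Pool.Agent.Results.MP_8027ba_an.All

open Filter Topology Set

theorem result (X : Set ℝ) (hne : X.Nonempty) (hc : IsCompact X) (hp : Perfect X) :
    ∃ K : ℕ → Set ℝ,
      (∀ i, IsCompact (K i) ∧ 0 ∈ K i ∧ K i ⊆ Ici 0 ∧ 0 < Metric.diam (K i)) ∧
      Tendsto (fun i => Metric.diam (K i)) atTop (𝓝 0) ∧
      Summable (fun i => Metric.diam (K i)) ∧
      Nonempty (X ≃ₜ {s : ℝ | ∃ x : ℕ → ℝ, (∀ j, x j ∈ K j) ∧ HasSum x s}) := by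
  have hX : H.MP_8027ba_an.PP X := ⟨hne, hc, fun x hx ε hε => by
    obtain ⟨y, hy, y1⟩ := (accPt_iff_nhds.1 (hp.acc x hx)) _ (Metric.ball_mem_nhds x hε)
    exact ⟨y, hy.2, y1, hy.1⟩⟩
  have ct := H.MP_8027ba_an.h_cont X 0
  obtain ⟨K, c₀, k1, k2, k3⟩ := H.MP_8027ba_an.assemble (hne.image _) (hc.image ct)
    (H.MP_8027ba_an.embed hX)
  refine ⟨K, k1, k2.tendsto_atTop_zero, k2, ?_⟩
  let f : X → {s : ℝ | ∃ x : ℕ → ℝ, (∀ j, x j ∈ K j) ∧ HasSum x s} := fun x =>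
    ⟨H.MP_8027ba_an.h X 0 x - c₀, (k3 _).2 ⟨x, x.2, by ring⟩⟩
  have fb : Function.Bijective f := by
    constructor
    · intro x y e
      have e' : H.MP_8027ba_an.h X 0 x - c₀ = H.MP_8027ba_an.h X 0 y - c₀ := congrArg Subtype.val e
      rcases lt_trichotomy (x:ℝ) y with q | q | q
      · linarith [H.MP_8027ba_an.h_strict hX 0 x.2 y.2 q]
      · exact Subtype.ext q
      · linarith [H.MP_8027ba_an.h_strict hX 0 y.2 x.2 q]
    · rintro ⟨s, hs⟩
      obtain ⟨x, hx, e⟩ := (k3 s).1 hs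
      exact ⟨⟨x, hx⟩, Subtype.ext (by simp only [f]; rw [e]; ring)⟩
  haveI : CompactSpace X := isCompact_iff_compactSpace.1 hc
  exact ⟨Continuous.homeoOfEquivCompactToT2 (f := Equiv.ofBijective f fb)
    (((ct.comp continuous_subtype_val).sub continuous_const).subtype_mk _)⟩

end Pool.Agent.Results.MP_8027ba_an.All
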